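import Pool.Agent.helper91.ADV.SpecL
import Pool.Agent.helper64.NG.Thr

/-!
# Project ADV (MP_069684_lc), row GRA
-/

set_option autoImplicit false

namespace Pool.Agent.ADV

open Finset Pool.Agent.helper55.NT Pool.Agent.LNB Pool.Agent.NG Pool.Agent.PB Pool.Agent.PC

lemma GRA_dist (n : ℕ) : IsDist (fun x : Fin n → Bool => if x = (fun _ => false) then (1 : ℝ) else 0) := by
  constructor
  · intro x
    dsimp only
    split_ifs <;> norm_num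
  · simp

lemma GRA_K {n s u K : ℕ} {C : Pool.Agent.helper38.Neg.Circuit n s} (hp : LocPat u K C) : 1 ≤ K := by
  have h10 := hp (fun _ _ => false) (fun _ _ _ => le_rfl) (fun _ _ _ _ => rfl)
  have h11 : (Set.range fun _ : ℕ => C.notVals (fun _ => false)) = {C.notVals (fun _ => false)} :=
    Set.range_const
  rw [h11, Set.encard_singleton] at h10
  exact_mod_cast h10

lemma GRA_num {L k e m s n : ℕ} (he : 1 ≤ e) (hL : 1 ≤ L) (hn : n + 2 < 2 ^ (L + 1)) (hm : m ≤ n)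
    (hs : s ≤ 2 ^ (k * L ^ e)) : (m : ℝ) * (((s : ℝ) + 1) / 2 ^ ((k + 3) * L ^ e)) ≤ 1 := by
  have hLe : L ≤ L ^ e := Nat.le_self_pow (by omega) L
  have h1 : m * (s + 1) ≤ 2 ^ ((k + 3) * L ^ e) := by
    calc m * (s + 1) ≤ 2 ^ (L + 1) * (2 ^ (k * L ^ e) + 1) := Nat.mul_le_mul (by omega) (by omega)
      _ ≤ 2 ^ (L + 1) * 2 ^ (k * L ^ e + 1) := by
          apply Nat.mul_le_mul_left
          have : 1 ≤ 2 ^ (k * L ^ e) := Nat.one_le_two_pow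
          rw [pow_succ]; omega
      _ = 2 ^ (L + 1 + (k * L ^ e + 1)) := by rw [← pow_add]
      _ ≤ 2 ^ ((k + 3) * L ^ e) := by
          apply Nat.pow_le_pow_right (by norm_num)
          rw [add_mul]
          omega
  have h2 : (m : ℝ) * ((s : ℝ) + 1) ≤ 2 ^ ((k + 3) * L ^ e) := by exact_mod_cast h1
  rw [← mul_div_assoc]
  exact div_le_one_of_le₀ h2 (by positivity)

theorem GRA (h1 : LBT_stmt) (h2 : ADL_stmt) : GRA_stmt := by
  intro u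
  obtain ⟨c, hc⟩ := h1
  obtain ⟨A, hA, hmono, hbd⟩ := hc u
  refine ⟨A, hA, hmono, fun K γ k e he hadv => ?_⟩
  refine ⟨2 * c * (k + 3) ^ 20 + 1, fun n => ?_⟩
  have hL1 : 1 ≤ lg n := lg_pos' n
  have hn2 : n + 2 < 2 ^ (lg n + 1) := Pool.Agent.helper55.NT.lt_two_pow_lg n
  -- K n is positive, γ n ≤ 1/2
  obtain ⟨s0, -, C0, o0, hP0, hγ0⟩ := hadv n _ (GRA_dist n)
  have hK : 1 ≤ K n := GRA_K hP0
  have hγ : γ n ≤ 1 / 2 := hγ0.trans (h2 n _ (A n) _ (GRA_dist n)).2.2.1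
  have hKr : (1 : ℝ) ≤ K n := by exact_mod_cast hK
  obtain ⟨m, hm⟩ : ∃ m, m = min (u n) n := ⟨_, rfl⟩
  obtain ⟨L, hL⟩ : ∃ L, L = lg n := ⟨_, rfl⟩
  rw [← hL] at hL1 hn2 ⊢
  rw [← hm]
  have hm0 : (0 : ℝ) ≤ m := Nat.cast_nonneg m
  obtain ⟨t, ht⟩ : ∃ t, t = (k + 3) * L ^ e := ⟨_, rfl⟩
  have hLr : (1 : ℝ) ≤ L := by exact_mod_cast hL1
  have hLp : (1 : ℝ) ≤ (L : ℝ) ^ (20 * e) := one_le_pow₀ hLr
  have ht20 : ((t : ℕ) : ℝ) ^ 20 = ((k : ℝ) + 3) ^ 20 * (L : ℝ) ^ (20 * e) := by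
    rw [ht]
    push_cast
    rw [mul_pow, ← pow_mul, mul_comm e 20]
  have hcast : ((2 * c * (k + 3) ^ 20 + 1 : ℕ) : ℝ) = 2 * c * ((k : ℝ) + 3) ^ 20 + 1 := by push_cast; ring
  have hB0 : (0 : ℝ) ≤ (c : ℝ) * (((k : ℝ) + 3) ^ 20 * (L : ℝ) ^ (20 * e)) := by positivity
  rw [hcast]
  by_cases hbig : c * t ^ 20 * 2 ≤ m
  · have htL : lg n ≤ t := by
      rw [← hL, ht]
      calc L ≤ L ^ e := Nat.le_self_pow (by omega) L
        _ ≤ (k + 3) * L ^ e := Nat.le_mul_of_pos_left _ (by omega)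
    obtain ⟨D, hD, hDb⟩ := hbd n t 2 htL (by norm_num) (by rw [← hm]; exact hbig)
    obtain ⟨s, hs, C, o, hP, hγD⟩ := hadv n D hD
    obtain ⟨C', f1, f2, f3⟩ := toM C
    have hp' : C'.LocPat (u n) (K n) := by
      intro x hx hx2
      have e1 : (fun i => C'.notVals (x i)) = fun i => C.notVals (x i) := funext fun i => f3 _
      rw [e1]
      exact hP x hx hx2
    obtain ⟨g1, g2⟩ := hDb s (K n) C' o f1 hp'
    have hval : (fun x => C'.val x o) = fun x => C.val x o := funext fun x => by rw [f2]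
    rw [hval, ← hm] at g1 g2
    have hs' : s ≤ 2 ^ (k * L ^ e) := by rw [hL]; exact hs
    have hmn : m ≤ n := by rw [hm]; exact min_le_right _ _
    have hnum := GRA_num he hL1 hn2 hmn hs'
    rw [← ht] at hnum
    by_cases hmz : m = 0
    · rw [hmz]
      simp only [Nat.cast_zero, mul_zero]
      positivity
    have hmp : (0 : ℝ) < m := by exact_mod_cast Nat.pos_of_ne_zero hmz
    obtain ⟨a, ha⟩ : ∃ a, a = agr D (A n) (fun x => C.val x o) := ⟨_, rfl⟩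
    rw [← ha] at g1 g2
    have hadv2 : adv D (A n) (fun x => C.val x o) = |a - 1 / 2| := by rw [ha]; rfl
    rw [hadv2] at hγD
    obtain ⟨X, hX⟩ : ∃ X, X = ((s : ℝ) + 1) / 2 ^ t := ⟨_, rfl⟩
    rw [← hX] at g1 g2 hnum
    have hc0 : (0 : ℝ) ≤ (c : ℝ) * (t : ℝ) ^ 20 * (2 : ℕ) := by positivity
    have g3 : |a - 1 / 2| ≤ (c : ℝ) * (t : ℝ) ^ 20 * (2 : ℕ) * (K n : ℝ) / m + X := by
      rw [abs_le]
      constructor
      · linarith
      · have : (c : ℝ) * (t : ℝ) ^ 20 * (2 : ℕ) * ((K n : ℝ) - 1) / m ≤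
            (c : ℝ) * (t : ℝ) ^ 20 * (2 : ℕ) * (K n : ℝ) / m := by
          apply div_le_div_of_nonneg_right _ hmp.le
          exact mul_le_mul_of_nonneg_left (by linarith) hc0
        linarith
    have g4 : γ n * m ≤ ((c : ℝ) * (t : ℝ) ^ 20 * (2 : ℕ) * (K n : ℝ) / m + X) * m :=
      mul_le_mul_of_nonneg_right (hγD.trans g3) hm0
    have g5 : ((c : ℝ) * (t : ℝ) ^ 20 * (2 : ℕ) * (K n : ℝ) / m + X) * m =
        (c : ℝ) * (t : ℝ) ^ 20 * (2 : ℕ) * (K n : ℝ) + m * X := by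
      rw [add_mul, div_mul_cancel₀ _ hmp.ne']; ring
    rw [g5, ht20] at g4
    have g6 : (1 : ℝ) ≤ (L : ℝ) ^ (20 * e) * K n := by
      calc (1 : ℝ) = 1 * 1 := (one_mul 1).symm
        _ ≤ (L : ℝ) ^ (20 * e) * K n := mul_le_mul hLp hKr (by norm_num) (by positivity)
    calc γ n * m ≤ _ := g4
      _ ≤ (c : ℝ) * (((k : ℝ) + 3) ^ 20 * (L : ℝ) ^ (20 * e)) * (2 : ℕ) * (K n : ℝ) + (L : ℝ) ^ (20 * e) * K n := by
          linarith
      _ = (2 * c * ((k : ℝ) + 3) ^ 20 + 1) * (L : ℝ) ^ (20 * e) * K n := by push_cast; ring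
  · rw [not_le] at hbig
    have g1 : (m : ℝ) ≤ (c : ℝ) * (t : ℝ) ^ 20 * 2 := by exact_mod_cast hbig.le
    rw [ht20] at g1
    calc γ n * m ≤ 1 / 2 * m := mul_le_mul_of_nonneg_right hγ hm0
      _ ≤ (c : ℝ) * (((k : ℝ) + 3) ^ 20 * (L : ℝ) ^ (20 * e)) * 1 := by linarith
      _ ≤ (c : ℝ) * (((k : ℝ) + 3) ^ 20 * (L : ℝ) ^ (20 * e)) * K n := mul_le_mul_of_nonneg_left hKr hB0
      _ ≤ (2 * c * ((k : ℝ) + 3) ^ 20 + 1) * (L : ℝ) ^ (20 * e) * K n := by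
          have e1 : (2 * c * ((k : ℝ) + 3) ^ 20 + 1) * (L : ℝ) ^ (20 * e) * K n =
            (c : ℝ) * (((k : ℝ) + 3) ^ 20 * (L : ℝ) ^ (20 * e)) * K n +
              (c : ℝ) * (((k : ℝ) + 3) ^ 20 * (L : ℝ) ^ (20 * e)) * K n + (L : ℝ) ^ (20 * e) * K n := by ring
          have e2 : (0 : ℝ) ≤ (c : ℝ) * (((k : ℝ) + 3) ^ 20 * (L : ℝ) ^ (20 * e)) * K n := by positivity
          have e3 : (0 : ℝ) ≤ (L : ℝ) ^ (20 * e) * K n := by positivity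
          linarith

end Pool.Agent.ADV
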